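import Pool.Agent.Lib.MP_3ff0f8_gt.PL.Grf

/-!
# Contractible edges in 3-connected graphs and at a vertex of a 2-connected graph
-/

namespace Pool.Agent.Lib.MP_3ff0f8_gt.PL

open Finset Relation

set_option linter.unusedSectionVars false

variable {V : Type*} [DecidableEq V] {G : SimpleGraph V} {A : Finset V}

theorem erase_sdiff_eq {b : V} {S : Finset V} : (A \ (S.erase b)).erase b = (A.erase b) \ S := by
  ext x
  simp only [mem_erase, mem_sdiff]
  tauto

/-- If the contraction of `ab` is not 3-connected then `a`, `b` and a third vertex separate. -/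
theorem sep_of_not_K3 {a b : V} (h : K3 G A) (hc : 5 ≤ #A) (ha : a ∈ A) (hb : b ∈ A)
    (hab : G.Adj a b) (hn : ¬ K3 (con G a b) (A.erase b)) :
    ∃ z ∈ A, z ≠ a ∧ z ≠ b ∧ ¬ Cn G (A \ {a, b, z}) := by
  have hcard : 4 ≤ #(A.erase b) := by
    rw [card_erase_of_mem hb]; omega
  have h1 : ¬ ∀ S : Finset V, #S ≤ 2 → Cn (con G a b) ((A.erase b) \ S) :=
    fun h' => hn ⟨hcard, h'⟩
  push Not at h1
  obtain ⟨S, hS, hS'⟩ := h1
  have haS : a ∈ S := by
    by_contra haS
    apply hS'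
    rw [← erase_sdiff_eq]
    refine Cn.con_erase (h.2 _ ((card_le_card (erase_subset _ _)).trans hS)) ?_ hab.ne
    rw [mem_sdiff, mem_erase]
    exact ⟨ha, fun h => haS h.2⟩
  have h2 : ¬ Cn G ((A.erase b) \ S) := by
    rwa [cn_con_iff] at hS'
    rw [mem_sdiff]
    exact fun h => h.2 haS
  have h3 : ∃ z ∈ S, z ∈ A ∧ z ≠ a ∧ z ≠ b := by
    by_contra hcon
    push Not at hcon
    apply h2
    have : (A.erase b) \ S = A \ {a, b} := by
      ext x
      simp only [mem_sdiff, mem_erase, mem_insert, mem_singleton]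
      constructor
      · rintro ⟨⟨h1, h2⟩, h3⟩
        refine ⟨h2, ?_⟩
        rintro (rfl | rfl)
        · exact h3 haS
        · exact h1 rfl
      · rintro ⟨h1, h2⟩
        refine ⟨⟨fun h => h2 (Or.inr h), h1⟩, fun h => ?_⟩
        by_cases hxa : x = a
        · exact h2 (Or.inl hxa)
        · exact h2 (Or.inr (hcon x h h1 hxa))
    rw [this]
    exact h.2 _ card_le_two
  obtain ⟨z, hzS, hzA, hza, hzb⟩ := h3
  refine ⟨z, hzA, hza, hzb, ?_⟩
  have hS2 : ({a, z} : Finset V) = S := by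
    apply eq_of_subset_of_card_le
    · intro x hx
      rcases mem_insert.1 hx with h | h
      · rwa [h]
      · rw [mem_singleton.1 h]; exact hzS
    · rw [card_pair hza.symm]; exact hS
  have : (A.erase b) \ S = A \ {a, b, z} := by
    rw [← hS2]
    ext x
    simp only [mem_sdiff, mem_erase, mem_insert, mem_singleton]
    tauto
  rwa [this] at h2

/-- Data of a separating edge and a component. -/
def Sep (G : SimpleGraph V) (A : Finset V) (a b z u : V) : Prop :=
  a ∈ A ∧ b ∈ A ∧ z ∈ A ∧ z ≠ a ∧ z ≠ b ∧ G.Adj a b ∧ u ∈ A \ {a, b, z} ∧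
    ¬ Cn G (A \ {a, b, z})

theorem Sep.step {a b z u : V} (h : K3 G A) (hs : Sep G A a b z u)
    (hall : ∀ a ∈ A, ∀ b ∈ A, G.Adj a b → ∃ z ∈ A, z ≠ a ∧ z ≠ b ∧ ¬ Cn G (A \ {a, b, z})) :
    ∃ a' b' z' u', Sep G A a' b' z' u' ∧
      #(cmp G (A \ {a, b, z}) u) < #(cmp G (A \ {a', b', z'}) u') := by
  obtain ⟨ha, hb, hz, hza, hzb, hab, hu, hn⟩ := hs
  set B : Finset V := A \ {a, b, z} with hB
  have hBmem : ∀ x, x ∈ B ↔ x ∈ A ∧ x ≠ a ∧ x ≠ b ∧ x ≠ z := by
    intro x
    rw [hB, mem_sdiff, mem_insert, mem_insert, mem_singleton]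
    push Not
    rfl
  obtain ⟨d, hd⟩ := sdiff_cmp_nonempty hn hu
  rw [mem_sdiff] at hd
  set C : Finset V := cmp G B u with hC
  have hCB : C ⊆ B := cmp_sub
  have huC : u ∈ C := self_mem_cmp hu
  have hcl : ∀ x ∈ C, ∀ y ∈ B, G.Adj x y → y ∈ C := fun x hx y hy h => cmp_closed hx hy h
  -- a neighbour `v` of `z` outside `C`
  have hv : ∃ v ∈ B, v ∉ C ∧ G.Adj v z := by
    have h1 : Cn G (A \ {a, b}) := h.2 _ card_le_two
    have hdA := (hBmem d).1 hd.1
    obtain ⟨x, y, hxy, hx, hy, hx1, hy1⟩ := h1.exit (C := B \ C) (u := d) (w := z)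
      (by
        rw [mem_sdiff, mem_insert, mem_singleton]
        push Not
        exact ⟨hdA.1, hdA.2.1, hdA.2.2.1⟩)
      (mem_sdiff.2 hd)
      (by
        rw [mem_sdiff, mem_insert, mem_singleton]
        push Not
        exact ⟨hz, hza, hzb⟩)
      (by
        rw [mem_sdiff]
        intro h
        exact ((hBmem z).1 h.1).2.2.2 rfl)
    rw [mem_sdiff] at hx1
    rw [mem_sdiff, mem_insert, mem_singleton] at hy
    push Not at hy
    refine ⟨x, hx1.1, hx1.2, ?_⟩
    by_cases hyz : y = z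
    · rwa [← hyz]
    · have hyB : y ∈ B := (hBmem y).2 ⟨hy.1, hy.2.1, hy.2.2, hyz⟩
      have hyC : y ∈ C := by
        by_contra hyC
        exact hy1 (mem_sdiff.2 ⟨hyB, hyC⟩)
      exact absurd (hcl y hyC x hx1.1 hxy.symm) hx1.2
  obtain ⟨v, hvB, hvC, hvz⟩ := hv
  have hvA := (hBmem v).1 hvB
  obtain ⟨w, hwA, hwz, hwv, hn'⟩ := hall z hz v hvA.1 hvz.symm
  set E : Finset V := (C ∪ {a, b}) \ {w} with hE
  have hEmem : ∀ x, x ∈ E ↔ (x ∈ C ∨ x = a ∨ x = b) ∧ x ≠ w := by
    intro x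
    rw [hE, mem_sdiff, mem_union, mem_insert, mem_singleton, mem_singleton]
  -- every vertex of `C` except `w` reaches `a` or `b`
  have hreach : ∀ x ∈ C, x ≠ w → ∃ q, (q = a ∨ q = b) ∧ q ≠ w ∧ Rch G E x q := by
    intro x hx hxw
    have h1 : Cn G (A \ {w, z}) := h.2 _ card_le_two
    have hxB := (hBmem x).1 (hCB hx)
    have hxm : x ∈ A \ {w, z} := by
      rw [mem_sdiff, mem_insert, mem_singleton]
      push Not
      exact ⟨hxB.1, hxw, hxB.2.2.2⟩
    have hvm : v ∈ A \ {w, z} := by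
      rw [mem_sdiff, mem_insert, mem_singleton]
      push Not
      exact ⟨hvA.1, hwv.symm, hvA.2.2.2⟩
    obtain ⟨p, q, hpq, hst, hp, hq⟩ := (h1.2 x hxm v hvm).exit hx hvC
    have hq2 := hst.2.2
    rw [mem_sdiff, mem_insert, mem_singleton] at hq2
    push Not at hq2
    have hqab : q = a ∨ q = b := by
      by_contra hcon
      push Not at hcon
      exact hq (hcl p hp q ((hBmem q).2 ⟨hq2.1, hcon.1, hcon.2, hq2.2.2⟩) hst.1)
    have hp2 := hst.2.1
    rw [mem_sdiff, mem_insert, mem_singleton] at hp2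
    push Not at hp2
    refine ⟨q, hqab, hq2.2.1, ?_⟩
    have hsub : (A \ {w, z}) ∩ C ⊆ E := by
      intro t ht
      rw [mem_inter, mem_sdiff, mem_insert, mem_singleton] at ht
      push Not at ht
      exact (hEmem t).2 ⟨Or.inl ht.2, ht.1.2.1⟩
    refine (hpq.mono hsub).trans (Rch.single hst.1 ?_ ?_)
    · exact (hEmem p).2 ⟨Or.inl hp, hp2.2.1⟩
    · exact (hEmem q).2 ⟨Or.inr hqab, hq2.2.1⟩
  -- a root
  obtain ⟨r, hr, hrw, hroot⟩ : ∃ r, (r = a ∨ r = b) ∧ r ≠ w ∧
      ∀ q, (q = a ∨ q = b) → q ≠ w → Rch G E q r := by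
    by_cases hwa : w = a
    · refine ⟨b, Or.inr rfl, fun h => hab.ne (hwa.symm.trans h.symm), ?_⟩
      rintro q (hq | hq) hqw
      · exact absurd (hq.trans hwa.symm) hqw
      · rw [hq]; exact ReflTransGen.refl
    · refine ⟨a, Or.inl rfl, fun h => hwa h.symm, ?_⟩
      rintro q (hq | hq) hqw
      · rw [hq]; exact ReflTransGen.refl
      · rw [hq] at hqw ⊢
        refine Rch.single hab.symm ?_ ?_
        · exact (hEmem b).2 ⟨Or.inr (Or.inr rfl), hqw⟩
        · exact (hEmem a).2 ⟨Or.inr (Or.inl rfl), fun h => hwa h.symm⟩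
  have hrE : r ∈ E := (hEmem r).2 ⟨Or.inr hr, hrw⟩
  have hEcn : Cn G E := by
    refine Cn.of_root hrE (fun x hx => ?_)
    have hx' := (hEmem x).1 hx
    rcases hx'.1 with hxC | hxab
    · obtain ⟨q, hq, hqw, hq'⟩ := hreach x hxC hx'.2
      exact hq'.trans (hroot q hq hqw)
    · exact hroot x hxab hx'.2
  have hEsub : E ⊆ A \ {z, v, w} := by
    intro x hx
    have hx' := (hEmem x).1 hx
    rw [mem_sdiff, mem_insert, mem_insert, mem_singleton]
    push Not
    rcases hx'.1 with hxC | rfl | rfl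
    · have := (hBmem x).1 (hCB hxC)
      exact ⟨this.1, this.2.2.2, fun h => hvC (h ▸ hxC), hx'.2⟩
    · exact ⟨ha, hza.symm, fun h => hvA.2.1 h.symm, hx'.2⟩
    · exact ⟨hb, hzb.symm, fun h => hvA.2.2.1 h.symm, hx'.2⟩
  refine ⟨z, v, w, r, ⟨hz, hvA.1, hwA, hwz, hwv, hvz.symm, hEsub hrE, hn'⟩, ?_⟩
  have h5 : E ⊆ cmp G (A \ {z, v, w}) r := hEcn.sub_cmp hEsub hrE (self_mem_cmp (hEsub hrE))
  refine lt_of_lt_of_le ?_ (card_le_card h5)
  have h6 : #(C ∪ {a, b}) = #C + 2 := by
    rw [card_union_of_disjoint, card_pair hab.ne]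
    rw [disjoint_left]
    intro x hx hx'
    have := (hBmem x).1 (hCB hx)
    rcases mem_insert.1 hx' with h | h
    · exact this.2.1 h
    · exact this.2.2.1 (mem_singleton.1 h)
  have h7 := le_card_sdiff ({w} : Finset V) (C ∪ {a, b})
  rw [h6, card_singleton, ← hE] at h7
  omega

/-- Every 3-connected graph with at least 5 vertices has an edge whose contraction is
3-connected. -/
theorem exists_con3 (h : K3 G A) (hc : 5 ≤ #A) :
    ∃ a ∈ A, ∃ b ∈ A, G.Adj a b ∧ K3 (con G a b) (A.erase b) := by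
  by_contra hcon
  push Not at hcon
  have hall : ∀ a ∈ A, ∀ b ∈ A, G.Adj a b → ∃ z ∈ A, z ≠ a ∧ z ≠ b ∧ ¬ Cn G (A \ {a, b, z}) :=
    fun a ha b hb hab => sep_of_not_K3 h hc ha hb hab (hcon a ha b hb hab)
  have hgrow : ∀ k : ℕ, ∃ a b z u, Sep G A a b z u ∧ k ≤ #(cmp G (A \ {a, b, z}) u) := by
    intro k
    induction k with
    | zero =>
      have h0 : Cn G A := by
        have := h.2 ∅ (by simp)
        rwa [sdiff_empty] at this
      obtain ⟨p, hp, q, hq, hpq⟩ := one_lt_card.1 (show 1 < #A by omega)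
      obtain ⟨a, b, hab, ha, hb, -, -⟩ := h0.exit (C := {p}) hp (mem_singleton_self p) hq
        (fun h => hpq (mem_singleton.1 h).symm)
      obtain ⟨z, hz, hza, hzb, hn⟩ := hall a ha b hb hab
      have hne : (A \ {a, b, z}).Nonempty := by
        rw [← card_pos]
        have h1 := le_card_sdiff ({a, b, z} : Finset V) A
        have h2 : #({a, b, z} : Finset V) ≤ 3 := card_le_three
        omega
      obtain ⟨u, hu⟩ := hne
      exact ⟨a, b, z, u, ⟨ha, hb, hz, hza, hzb, hab, hu, hn⟩, Nat.zero_le _⟩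
    | succ k ih =>
      obtain ⟨a, b, z, u, hs, hk⟩ := ih
      obtain ⟨a', b', z', u', hs', hk'⟩ := hs.step h hall
      exact ⟨a', b', z', u', hs', by omega⟩
  obtain ⟨a, b, z, u, -, hk⟩ := hgrow (#A + 1)
  have h1 : #(cmp G (A \ {a, b, z}) u) ≤ #A := card_le_card (cmp_sub.trans sdiff_subset)
  omega

/-- If the contraction of `uw` is not 2-connected then `u`, `w` separate. -/
theorem sep_of_not_K2 {u w : V} (h : K2 G A) (hc : 4 ≤ #A) (hw : w ∈ A) (hu : u ∈ A)
    (hwu : G.Adj w u) (hn : ¬ K2 (con G w u) (A.erase u)) : ¬ Cn G (A \ {u, w}) := by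
  have hcard : 3 ≤ #(A.erase u) := by
    rw [card_erase_of_mem hu]; omega
  have h1 : ¬ ∀ S : Finset V, #S ≤ 1 → Cn (con G w u) ((A.erase u) \ S) :=
    fun h' => hn ⟨hcard, h'⟩
  push Not at h1
  obtain ⟨S, hS, hS'⟩ := h1
  have hwS : w ∈ S := by
    by_contra hwS
    apply hS'
    rw [← erase_sdiff_eq]
    refine Cn.con_erase (h.2 _ ((card_le_card (erase_subset _ _)).trans hS)) ?_ hwu.ne
    rw [mem_sdiff, mem_erase]
    exact ⟨hw, fun h => hwS h.2⟩
  have hS2 : ({w} : Finset V) = S := by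
    apply eq_of_subset_of_card_le
    · intro x hx
      rw [mem_singleton.1 hx]; exact hwS
    · rw [card_singleton]; exact hS
  have h2 : ¬ Cn G ((A.erase u) \ S) := by
    rwa [cn_con_iff] at hS'
    rw [mem_sdiff]
    exact fun h => h.2 hwS
  have : (A.erase u) \ S = A \ {u, w} := by
    rw [← hS2]
    ext x
    simp only [mem_sdiff, mem_erase, mem_insert, mem_singleton]
    tauto
  rwa [this] at h2

/-- Every vertex of a 2-connected graph with at least 4 vertices has a neighbour into which it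
can be contracted. -/
theorem exists_con2 {u : V} (h : K2 G A) (hc : 4 ≤ #A) (hu : u ∈ A) :
    ∃ w ∈ A, G.Adj w u ∧ K2 (con G w u) (A.erase u) := by
  by_contra hcon
  push Not at hcon
  have hall : ∀ w ∈ A, G.Adj w u → ¬ Cn G (A \ {u, w}) :=
    fun w hw hwu => sep_of_not_K2 h hc hw hu hwu (hcon w hw hwu)
  have key : ∀ n : ℕ, ∀ w ∈ A, ∀ C : Finset V, G.Adj w u → C ⊆ A \ {u, w} → C.Nonempty →
      (∀ x ∈ C, ∀ y ∈ A \ {u, w}, G.Adj x y → y ∈ C) → #C ≤ n → False := by
    intro n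
    induction n with
    | zero =>
      intro w hw C hwu hC hne hcl hn
      rw [Nat.le_zero, card_eq_zero] at hn
      exact hne.ne_empty hn
    | succ n ih =>
      intro w hw C hwu hC hne hcl hn
      have hBmem : ∀ x, x ∈ A \ {u, w} ↔ x ∈ A ∧ x ≠ u ∧ x ≠ w := by
        intro x
        rw [mem_sdiff, mem_insert, mem_singleton]
        push Not
        rfl
      -- a neighbour of `u` in `C`
      obtain ⟨c, hc'⟩ := hne
      have h1 : Cn G (A \ {w}) := h.2 _ (by rw [card_singleton])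
      obtain ⟨w', q, hadj, hw'A, hqA, hw'C, hqC⟩ := h1.exit (C := C) (u := c) (w := u)
        (by
          have := (hBmem c).1 (hC hc')
          rw [mem_sdiff, mem_singleton]
          exact ⟨this.1, this.2.2⟩) hc'
        (by rw [mem_sdiff, mem_singleton]; exact ⟨hu, hwu.ne.symm⟩)
        (fun h => ((hBmem u).1 (hC h)).2.1 rfl)
      rw [mem_sdiff, mem_singleton] at hqA hw'A
      have hqu : q = u := by
        by_contra hqu
        exact hqC (hcl w' hw'C q ((hBmem q).2 ⟨hqA.1, hqu, hqA.2⟩) hadj)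
      rw [hqu] at hadj
      have hB'mem : ∀ x, x ∈ A \ {u, w'} ↔ x ∈ A ∧ x ≠ u ∧ x ≠ w' := by
        intro x
        rw [mem_sdiff, mem_insert, mem_singleton]
        push Not
        rfl
      have hwB' : w ∈ A \ {u, w'} := (hB'mem w).2 ⟨hw, hwu.ne, fun h => hw'A.2 h.symm⟩
      have hn' := hall w' hw'A.1 hadj
      have hne' := sdiff_cmp_nonempty hn' hwB'
      set C1 : Finset V := (A \ {u, w'}) \ cmp G (A \ {u, w'}) w with hC1
      have hC1C : C1 ⊆ C := by
        intro x hx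
        rw [hC1, mem_sdiff] at hx
        by_contra hxC
        have hxB' := (hB'mem x).1 hx.1
        have hxw : x ≠ w := by
          intro h
          apply hx.2
          rw [h]
          exact self_mem_cmp hwB'
        -- first exit from the complement of `C`
        have h2 : Cn G (A \ {u}) := h.2 _ (by rw [card_singleton])
        have h3 := h2.2 x (by rw [mem_sdiff, mem_singleton]; exact ⟨hxB'.1, hxB'.2.1⟩) w
          (by rw [mem_sdiff, mem_singleton]; exact ⟨hw, hwu.ne⟩)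
        obtain ⟨p, q', hxp, hst, hp, hq'⟩ := h3.exit (C := (A \ {u, w}) \ C)
          (mem_sdiff.2 ⟨(hBmem x).2 ⟨hxB'.1, hxB'.2.1, hxw⟩, hxC⟩)
          (fun h => ((hBmem w).1 (mem_sdiff.1 h).1).2.2 rfl)
        have hq'A := hst.2.2
        rw [mem_sdiff, mem_singleton] at hq'A
        rw [mem_sdiff] at hp
        have hq'w : q' = w := by
          by_contra hq'w
          have h4 : q' ∈ A \ {u, w} := (hBmem q').2 ⟨hq'A.1, hq'A.2, hq'w⟩
          have h5 : q' ∈ C := by
            by_contra h5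
            exact hq' (mem_sdiff.2 ⟨h4, h5⟩)
          exact hp.2 (hcl q' h5 p hp.1 hst.1.symm)
        rw [hq'w] at hst
        have hsub : (A \ {u}) ∩ ((A \ {u, w}) \ C) ⊆ A \ {u, w'} := by
          intro t ht
          rw [mem_inter, mem_sdiff (t := C)] at ht
          have h6 := (hBmem t).1 ht.2.1
          exact (hB'mem t).2 ⟨h6.1, h6.2.1, fun h => ht.2.2 (h ▸ hw'C)⟩
        have hpB' : p ∈ A \ {u, w'} := by
          have h6 := (hBmem p).1 hp.1
          exact (hB'mem p).2 ⟨h6.1, h6.2.1, fun h => hp.2 (h ▸ hw'C)⟩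
        apply hx.2
        rw [mem_cmp]
        exact ⟨hx.1, ((hxp.mono hsub).trans (Rch.single hst.1 hpB' hwB')).symm⟩
      have hw'C1 : w' ∉ C1 := by
        intro h
        rw [hC1, mem_sdiff] at h
        exact ((hB'mem w').1 h.1).2.2 rfl
      refine ih w' hw'A.1 C1 hadj ?_ hne' ?_ ?_
      · rw [hC1]; exact sdiff_subset
      · intro x hx y hy hxy
        rw [hC1, mem_sdiff] at hx ⊢
        exact ⟨hy, fun h => hx.2 (cmp_closed h hx.1 hxy.symm)⟩
      · have h7 : C1 ⊂ C := ⟨hC1C, fun h => hw'C1 (h hw'C)⟩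
        have := card_lt_card h7
        omega
  -- start
  have h0 : Cn G A := by
    have := h.2 ∅ (by simp)
    rwa [sdiff_empty] at this
  obtain ⟨q, hq, hqu⟩ := exists_mem_ne (show 1 < #A by omega) u
  obtain ⟨x, w, hxw, hx, hw, hxu, -⟩ := h0.exit (C := {u}) hu (mem_singleton_self u) hq
    (fun h => hqu (mem_singleton.1 h))
  rw [mem_singleton] at hxu
  rw [hxu] at hxw
  have hne : (A \ {u, w}).Nonempty := by
    rw [← card_pos]
    have h1 := le_card_sdiff ({u, w} : Finset V) A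
    have h2 : #({u, w} : Finset V) ≤ 2 := card_le_two
    omega
  obtain ⟨c, hc'⟩ := hne
  refine key _ w hw (cmp G (A \ {u, w}) c) hxw.symm cmp_sub ⟨c, self_mem_cmp hc'⟩ ?_ le_rfl
  intro x hx y hy hxy
  exact cmp_closed hx hy hxy

end Pool.Agent.Lib.MP_3ff0f8_gt.PL
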