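import Mathlib

/-!
# Finite graphs: connected sets of vertices, contraction of an edge, minors

All graphs are simple graphs on a type `V`; only the vertices in a finite set `A` count.
-/

namespace Pool.Agent.Lib.MP_3ff0f8_gt.PL

open Finset Relation

set_option linter.unusedSectionVars false

variable {V : Type*} [DecidableEq V]

/-- One step of the graph inside the set `A`. -/
def Stp (G : SimpleGraph V) (A : Finset V) (x y : V) : Prop := G.Adj x y ∧ x ∈ A ∧ y ∈ A

/-- `y` can be reached from `x` inside `A`. -/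
def Rch (G : SimpleGraph V) (A : Finset V) : V → V → Prop := ReflTransGen (Stp G A)

/-- `A` is nonempty and connected. -/
def Cn (G : SimpleGraph V) (A : Finset V) : Prop :=
  A.Nonempty ∧ ∀ u ∈ A, ∀ w ∈ A, Rch G A u w

/-- `A` spans a `2`-connected graph. -/
def K2 (G : SimpleGraph V) (A : Finset V) : Prop :=
  3 ≤ #A ∧ ∀ S : Finset V, #S ≤ 1 → Cn G (A \ S)

/-- `A` spans a `3`-connected graph. -/
def K3 (G : SimpleGraph V) (A : Finset V) : Prop :=
  4 ≤ #A ∧ ∀ S : Finset V, #S ≤ 2 → Cn G (A \ S)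

/-- `H` is a minor of the graph spanned by `A`. -/
def Mn {W : Type*} (H : SimpleGraph W) (G : SimpleGraph V) (A : Finset V) : Prop :=
  ∃ B : W → Finset V, (∀ i, B i ⊆ A) ∧ (∀ i, Cn G (B i)) ∧
    (∀ i j, i ≠ j → Disjoint (B i) (B j)) ∧
    ∀ i j, H.Adj i j → ∃ u ∈ B i, ∃ w ∈ B j, G.Adj u w

/-- The vertex `b` is merged into `a`. -/
def con (G : SimpleGraph V) (a b : V) : SimpleGraph V where
  Adj u w := u ≠ w ∧ (G.Adj u w ∨ (u = a ∧ G.Adj b w) ∨ (w = a ∧ G.Adj b u))
  symm := ⟨by
    rintro u w ⟨h, h'⟩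
    refine ⟨h.symm, ?_⟩
    rcases h' with h' | h' | h'
    · exact Or.inl h'.symm
    · exact Or.inr (Or.inr h')
    · exact Or.inr (Or.inl h')⟩
  loopless := ⟨fun u h => h.1 rfl⟩

section Basic

variable {G : SimpleGraph V} {A B C : Finset V} {a b u v w x y : V}

theorem Stp.symm (h : Stp G A x y) : Stp G A y x := ⟨h.1.symm, h.2.2, h.2.1⟩

theorem Rch.symm (h : Rch G A u w) : Rch G A w u := by
  induction h with
  | refl => exact ReflTransGen.refl
  | tail _ h' ih => exact ReflTransGen.head h'.symm ih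

theorem Rch.trans (h : Rch G A u v) (h' : Rch G A v w) : Rch G A u w :=
  ReflTransGen.trans h h'

theorem Rch.mono (hAB : A ⊆ B) (h : Rch G A u w) : Rch G B u w :=
  ReflTransGen.mono (fun _ _ h => ⟨h.1, hAB h.2.1, hAB h.2.2⟩) _ _ h

theorem Rch.mem (h : Rch G A u w) (hu : u ∈ A) : w ∈ A := by
  induction h with
  | refl => exact hu
  | tail _ h' _ => exact h'.2.2

theorem Rch.single (h : G.Adj u w) (hu : u ∈ A) (hw : w ∈ A) : Rch G A u w :=
  ReflTransGen.single ⟨h, hu, hw⟩

/-- The first step that leaves the set `C`. -/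
theorem Rch.exit (h : Rch G B u w) (hu : u ∈ C) (hw : w ∉ C) :
    ∃ x y, Rch G (B ∩ C) u x ∧ Stp G B x y ∧ x ∈ C ∧ y ∉ C := by
  have key : (w ∈ C ∧ Rch G (B ∩ C) u w) ∨
      ∃ x y, Rch G (B ∩ C) u x ∧ Stp G B x y ∧ x ∈ C ∧ y ∉ C := by
    clear hw
    induction h with
    | refl => exact Or.inl ⟨hu, ReflTransGen.refl⟩
    | @tail p q _ h' ih =>
      rcases ih with ih | ih
      · by_cases hq : q ∈ C
        · refine Or.inl ⟨hq, ih.2.trans (Rch.single h'.1 ?_ ?_)⟩
          · exact mem_inter.2 ⟨h'.2.1, ih.1⟩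
          · exact mem_inter.2 ⟨h'.2.2, hq⟩
        · exact Or.inr ⟨p, q, ih.2, h', ih.1, hq⟩
      · exact Or.inr ih
  rcases key with h | h
  · exact absurd h.1 hw
  · exact h

/-- A connected set has an edge between every subset and its complement. -/
theorem Cn.exit (h : Cn G B) (hu : u ∈ B) (huC : u ∈ C) (hw : w ∈ B) (hwC : w ∉ C) :
    ∃ x y, G.Adj x y ∧ x ∈ B ∧ y ∈ B ∧ x ∈ C ∧ y ∉ C := by
  obtain ⟨x, y, -, h1, h2, h3⟩ := (h.2 u hu w hw).exit huC hwC
  exact ⟨x, y, h1.1, h1.2.1, h1.2.2, h2, h3⟩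

theorem Cn.single (a : V) : Cn G {a} := by
  refine ⟨⟨a, mem_singleton_self a⟩, ?_⟩
  intro u hu w hw
  rw [mem_singleton] at hu hw
  subst hu; subst hw
  exact ReflTransGen.refl

theorem Cn.union (hA : Cn G A) (hB : Cn G B) (hx : x ∈ A) (hy : y ∈ B)
    (hxy : x = y ∨ G.Adj x y) : Cn G (A ∪ B) := by
  have h1 : Rch G (A ∪ B) x y := by
    rcases hxy with h | h
    · subst h; exact ReflTransGen.refl
    · exact Rch.single h (mem_union_left _ hx) (mem_union_right _ hy)
  have hA' : ∀ u ∈ A, Rch G (A ∪ B) u x := fun u hu =>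
    (hA.2 u hu x hx).mono subset_union_left
  have hB' : ∀ u ∈ B, Rch G (A ∪ B) u x := fun u hu =>
    ((hB.2 u hu y hy).mono subset_union_right).trans h1.symm
  have h2 : ∀ u ∈ A ∪ B, Rch G (A ∪ B) u x := by
    intro u hu
    rcases mem_union.1 hu with h | h
    · exact hA' u h
    · exact hB' u h
  exact ⟨⟨x, mem_union_left _ hx⟩, fun u hu w hw => (h2 u hu).trans (h2 w hw).symm⟩

/-- A set all of whose vertices reach a fixed vertex. -/
theorem Cn.of_root (ha : a ∈ A) (h : ∀ u ∈ A, Rch G A u a) : Cn G A :=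
  ⟨⟨a, ha⟩, fun u hu w hw => (h u hu).trans (h w hw).symm⟩

open Classical in
/-- The component of `u` in `A`. -/
noncomputable def cmp (G : SimpleGraph V) (A : Finset V) (u : V) : Finset V :=
  A.filter (fun x => Rch G A u x)

theorem mem_cmp : x ∈ cmp G A u ↔ x ∈ A ∧ Rch G A u x := by
  classical
  unfold cmp
  rw [mem_filter]

theorem cmp_sub : cmp G A u ⊆ A := fun _ hx => (mem_cmp.1 hx).1

theorem self_mem_cmp (hu : u ∈ A) : u ∈ cmp G A u := mem_cmp.2 ⟨hu, ReflTransGen.refl⟩

theorem cmp_closed (hx : x ∈ cmp G A u) (hy : y ∈ A) (h : G.Adj x y) : y ∈ cmp G A u := by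
  rw [mem_cmp] at hx ⊢
  exact ⟨hy, hx.2.trans (Rch.single h hx.1 hy)⟩

theorem cn_cmp (hu : u ∈ A) : Cn G (cmp G A u) := by
  have h : ∀ x, Rch G A u x → Rch G (cmp G A u) u x := by
    intro x hx
    induction hx with
    | refl => exact ReflTransGen.refl
    | @tail p q h1 h2 ih =>
      refine ih.trans (Rch.single h2.1 ?_ ?_)
      · exact mem_cmp.2 ⟨h2.2.1, h1⟩
      · exact mem_cmp.2 ⟨h2.2.2, ReflTransGen.tail h1 h2⟩
  exact Cn.of_root (self_mem_cmp hu) (fun x hx => (h x (mem_cmp.1 hx).2).symm)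

/-- A connected subset that meets a component lies in it. -/
theorem Cn.sub_cmp (hB : Cn G B) (hBA : B ⊆ A) (hx : x ∈ B) (hxu : x ∈ cmp G A u) :
    B ⊆ cmp G A u := by
  intro y hy
  rw [mem_cmp] at hxu ⊢
  exact ⟨hBA hy, hxu.2.trans ((hB.2 x hx y hy).mono hBA)⟩

/-- In a set which is not connected every component is proper. -/
theorem sdiff_cmp_nonempty (h : ¬ Cn G A) (hu : u ∈ A) : (A \ cmp G A u).Nonempty := by
  rw [nonempty_iff_ne_empty]
  intro h'
  rw [sdiff_eq_empty_iff_subset] at h'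
  apply h
  rw [subset_antisymm h' cmp_sub]
  exact cn_cmp hu

theorem Cn.congr {G' : SimpleGraph V} (h : ∀ x ∈ A, ∀ y ∈ A, G.Adj x y → G'.Adj x y)
    (hA : Cn G A) : Cn G' A := by
  refine ⟨hA.1, fun u hu w hw => ?_⟩
  exact ReflTransGen.mono (fun x y h' => ⟨h x h'.2.1 y h'.2.2 h'.1, h'.2⟩) _ _ (hA.2 u hu w hw)

end Basic

section Contraction

variable {G : SimpleGraph V} {A B C : Finset V} {a b u v w x y : V}

theorem con_adj_iff (hxa : x ≠ a) (hya : y ≠ a) : (con G a b).Adj x y ↔ G.Adj x y := by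
  constructor
  · rintro ⟨_, h | h | h⟩
    · exact h
    · exact absurd h.1 hxa
    · exact absurd h.1 hya
  · intro h
    exact ⟨h.ne, Or.inl h⟩

theorem con_adj_left (hya : y ≠ a) : (con G a b).Adj a y ↔ (G.Adj a y ∨ G.Adj b y) := by
  constructor
  · rintro ⟨_, h | h | h⟩
    · exact Or.inl h
    · exact Or.inr h.2
    · exact absurd h.1 hya
  · intro h
    refine ⟨hya.symm, ?_⟩
    rcases h with h | h
    · exact Or.inl h
    · exact Or.inr (Or.inl ⟨rfl, h⟩)

theorem con_of_adj (h : G.Adj x y) : (con G a b).Adj x y := ⟨h.ne, Or.inl h⟩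

/-- The image of a connected set under the contraction. -/
theorem Cn.con_erase (hB : Cn G B) (ha : a ∈ B) (hab : a ≠ b) :
    Cn (con G a b) (B.erase b) := by
  have haB : a ∈ B.erase b := mem_erase.2 ⟨hab, ha⟩
  have key : ∀ x, Rch G B a x → (x ≠ b → Rch (con G a b) (B.erase b) a x) := by
    intro x hx
    -- strengthen: if the path ends in `b`, nothing to say
    induction hx with
    | refl => intro _; exact ReflTransGen.refl
    | @tail p q h1 h2 ih =>
      intro hq
      by_cases hqa : q = a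
      · subst hqa; exact ReflTransGen.refl
      by_cases hp : p = b
      · subst hp
        refine Rch.single ?_ haB (mem_erase.2 ⟨hq, h2.2.2⟩)
        exact (con_adj_left hqa).2 (Or.inr h2.1)
      · refine (ih hp).trans (Rch.single (con_of_adj h2.1) ?_ ?_)
        · exact mem_erase.2 ⟨hp, h2.2.1⟩
        · exact mem_erase.2 ⟨hq, h2.2.2⟩
  refine Cn.of_root haB (fun x hx => ?_)
  rw [mem_erase] at hx
  exact (key x (hB.2 a ha x hx.2) hx.1).symm

/-- A connected set that avoids the contracted edge. -/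
theorem cn_con_iff (ha : a ∉ B) : Cn (con G a b) B ↔ Cn G B := by
  constructor
  · intro h
    exact h.congr (fun x hx y hy h' =>
      (con_adj_iff (ne_of_mem_of_not_mem hx ha) (ne_of_mem_of_not_mem hy ha)).1 h')
  · intro h
    exact h.congr (fun x hx y hy h' => con_of_adj h')

/-- The preimage of a connected set which contains the contracted vertex. -/
theorem Cn.insert_of_con (h : Cn (con G a b) B) (ha : a ∈ B) (hab : G.Adj a b) :
    Cn G (insert b B) := by
  have key : ∀ x, Rch (con G a b) B a x → Rch G (insert b B) a x := by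
    intro x hx
    induction hx with
    | refl => exact ReflTransGen.refl
    | @tail p q h1 h2 ih =>
      have hq : q ∈ insert b B := mem_insert_of_mem h2.2.2
      have hp : p ∈ insert b B := mem_insert_of_mem h2.2.1
      have hb : b ∈ insert b B := mem_insert_self b B
      have ha' : a ∈ insert b B := mem_insert_of_mem ha
      rcases h2.1.2 with h | h | h
      · exact ih.trans (Rch.single h hp hq)
      · exact (Rch.single hab ha' hb).trans (Rch.single h.2 hb hq)
      · rw [h.1]; exact ReflTransGen.refl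
  refine Cn.of_root (mem_insert_of_mem ha) (fun x hx => ?_)
  rcases mem_insert.1 hx with h' | h'
  · subst h'
    exact Rch.single hab.symm (mem_insert_self _ _) (mem_insert_of_mem ha)
  · exact (key x (h.2 a ha x h')).symm

/-- Lift of a set of vertices of the contracted graph. -/
def lft (a b : V) (B : Finset V) : Finset V := if a ∈ B then insert b B else B

theorem sub_lft : B ⊆ lft a b B := by
  unfold lft
  split_ifs
  · exact subset_insert _ _
  · exact Subset.refl _

theorem Cn.lft (h : Cn (con G a b) B) (hab : G.Adj a b) : Cn G (lft a b B) := by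
  unfold PL.lft
  split_ifs with ha
  · exact h.insert_of_con ha hab
  · exact (cn_con_iff ha).1 h

theorem lft_sub (hB : B ⊆ A.erase b) (hb : b ∈ A) : lft a b B ⊆ A := by
  unfold lft
  split_ifs
  · exact insert_subset hb (hB.trans (erase_subset _ _))
  · exact hB.trans (erase_subset _ _)

theorem lft_disj (hB : b ∉ B) (hC : b ∉ C) (h : Disjoint B C) :
    Disjoint (lft a b B) (lft a b C) := by
  unfold lft
  split_ifs with h1 h2 h2
  · exact absurd h2 (disjoint_left.1 h h1)
  · rw [disjoint_insert_left]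
    exact ⟨hC, h⟩
  · rw [disjoint_insert_right]
    exact ⟨hB, h⟩
  · exact h

theorem lft_adj (hB : ∃ u ∈ B, ∃ w ∈ C, (con G a b).Adj u w) :
    ∃ u ∈ lft a b B, ∃ w ∈ lft a b C, G.Adj u w := by
  obtain ⟨u, hu, w, hw, -, h | ⟨rfl, h⟩ | ⟨rfl, h⟩⟩ := hB
  · exact ⟨u, sub_lft hu, w, sub_lft hw, h⟩
  · refine ⟨b, ?_, w, sub_lft hw, h⟩
    unfold lft
    rw [if_pos hu]
    exact mem_insert_self _ _
  · refine ⟨u, sub_lft hu, b, ?_, h.symm⟩
    unfold lft
    rw [if_pos hw]
    exact mem_insert_self _ _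

/-- Minors of the contracted graph are minors of the graph. -/
theorem Mn.of_con {W : Type*} {H : SimpleGraph W} (hab : G.Adj a b) (hb : b ∈ A)
    (h : Mn H (con G a b) (A.erase b)) : Mn H G A := by
  obtain ⟨B, h1, h2, h3, h4⟩ := h
  have hbB : ∀ i, b ∉ B i := fun i hi => (mem_erase.1 (h1 i hi)).1 rfl
  exact ⟨fun i => lft a b (B i), fun i => lft_sub (h1 i) hb, fun i => (h2 i).lft hab,
    fun i j hij => lft_disj (hbB i) (hbB j) (h3 i j hij), fun i j hij => lft_adj (h4 i j hij)⟩

end Contraction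

end Pool.Agent.Lib.MP_3ff0f8_gt.PL
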